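import Pool.Agent.R343.SunDet5

set_option autoImplicit false

namespace Pool.Agent.Results.MP_6c59e0_nt.SqrtSymbol

open Finset Matrix

/-- the determinant `D_p^(1)`; the Jacobi symbol of Mathlib is the Legendre symbol when `p` is an
odd prime. The indices `j, k` of `Fin ((p - 1) / 2)` stand for `j + 1, k + 1`. -/
def D (p : ℕ) : ℤ :=
  (Matrix.of fun j k : Fin ((p - 1) / 2) => ((((j : ℕ) : ℤ) + 1) ^ 2 - (((k : ℕ) : ℤ) + 1) ^ 2) *
    jacobiSym ((((j : ℕ) : ℤ) + 1) ^ 2 - (((k : ℕ) : ℤ) + 1) ^ 2) p).det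

/-- the number `N(p)` of the `k` with `0 < k < p / 4` and `(k / p) = -1` -/
def N (p : ℕ) : ℕ := ((range p).filter fun k : ℕ => 0 < k ∧ 4 * k < p ∧
  jacobiSym (k : ℤ) p = -1).card

open Pool.Agent.R343.SunDet

theorem D_eq (p q : ℕ) [hp : Fact p.Prime] (hpq : p = 4 * q + 1) :
    D p = (mat p 1 (2 * q)).det := by
  have h1 : (p - 1) / 2 = 2 * q := by omega
  unfold D mat
  rw [h1]
  congr 1
  ext j l
  simp only [Matrix.of_apply]
  rw [jacobiSym.legendreSym.to_jacobiSym, pow_one]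

theorem N_eq (p q : ℕ) [hp : Fact p.Prime] (hpq : p = 4 * q + 1) : N p = NN p q := by
  unfold N NN
  congr 1
  ext k
  rw [mem_filter, mem_filter, mem_range, mem_Ioc, jacobiSym.legendreSym.to_jacobiSym]
  constructor
  · rintro ⟨_, h2, h3, h4⟩
    exact ⟨⟨h2, by omega⟩, h4⟩
  · rintro ⟨⟨h2, h3⟩, h4⟩
    exact ⟨by omega, h2, by omega, h4⟩

/-- **Q1.** The identity holds for all primes `p ≡ 1 (mod 4)`. -/
theorem result (p : ℕ) (hp : p.Prime) (h4 : p % 4 = 1) :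
    (∃ s : ℤ, s ^ 2 = D p) ∧
    ∀ s : ℤ, s ^ 2 = D p → jacobiSym s p = (-1) ^ N p * jacobiSym p 3 := by
  have : Fact p.Prime := ⟨hp⟩
  obtain ⟨q, hq⟩ : ∃ q, p = 4 * q + 1 := ⟨p / 4, by omega⟩
  have hq0 : 0 < q := by
    rcases Nat.eq_zero_or_pos q with h | h
    · rw [h] at hq
      exact absurd hq hp.one_lt.ne'
    · exact h
  constructor
  · obtain ⟨s, _, hs⟩ := exists_sqrt p q 1 (2 * q) hq (by decide)
    exact ⟨s, by rw [hs, D_eq p q hq]⟩
  · intro s hs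
    rw [D_eq p q hq] at hs
    rw [← jacobiSym.legendreSym.to_jacobiSym, leg_one p q hq hq0 s hs, N_eq p q hq]

end Pool.Agent.Results.MP_6c59e0_nt.SqrtSymbol
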